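import Pool.Agent.Run7.h429.TG.Main

set_option autoImplicit false

/-!
# The canonical finite unions theorem (Taylor) for consecutive prime gaps next to a record gap

Let `f(x) = log x (log₂ x)² log₄ x / (log₃ x)²`, the size of the largest gaps between consecutive
primes that are known to occur up to `x` (starting library). Let `F_1, …, F_L` be ANY functions on the
integers, with any sets of values (not only finitely many colours), and let `H` be any scale with
`1 ≤ H ≤ c f(x)`.

1. There are at least `x^(7/8)` clusters of `m + 1` consecutive primes up to `x` that follow a gap of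
size at least `c f(x)`, whose gaps `d_0, …, d_(m-1)` are between `H` and `C H`, and such that for every
`l` the value of `F_l` at the sum `σ(I) = ∑_(i ∈ I) d_i`, `∅ ≠ I ⊆ {0, …, m - 1}`, is constant, or
determines and is determined by exactly one of: `min I`; `max I`; `(min I, max I)`; `I` itself.
2. If moreover no `F_l` takes a value more than `t` times, then all the values `F_l(σ(I))` of each
`F_l` are different.

`c > 0`, `C` and `x₀` depend only on `m` and `L` (and `t`). For `H = c f(x)` all the `m + 1` gaps have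
record size. For functions with finitely many values part 1 contains the theorem of Folkman, Rado and
Sanders for gaps of the starting file `MP_ff81b6_nt.MillikenTaylorForGaps`; here the number of values is
not bounded. (The canonical theorem for the differences `p_j - p_i` of the primes of a block, that is,
for intervals `I`, is the starting file `MP_f9960f_nt.CanonicalChains`.)

Method. The Milliken-Taylor theorem for gaps of the starting file (`Pool.Agent.Y898.MTC.mt_gaps`,
helper898, on the infinite dimensional finite unions theorem of helper68 and the record sieve of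
helper101, helper256 and their teams) is applied to the equality patterns of the `F_l` on the sums of
`(m + 3)`-tuples. The passage from homogeneous equality patterns to the five canonical types
(`Pool.Agent.Run7.h429.TG.canon`, helper429) is a short new argument: if `F(σ(I)) = F(σ(J))` and
`j ∈ J ∖ I`, then the element `j` of `J` can be replaced by `{j, j + 1}` without changing the value.
-/

namespace Pool.Agent.Results.MP_ff81b6_nt.CanonicalSumsOfGaps

/-- The record scale `f(x) = log x (log₂ x)² log₄ x / (log₃ x)²` (iterated natural logarithms). -/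
noncomputable def f (x : ℝ) : ℝ :=
  Real.log x * (Real.log (Real.log x)) ^ 2 * Real.log (Real.log (Real.log (Real.log x))) /
    (Real.log (Real.log (Real.log x))) ^ 2

/-- The `i`-th prime, numbered from `p 0 = 2`. -/
noncomputable def p (i : ℕ) : ℕ := Nat.nth Nat.Prime i

/-- The gap after the `i`-th prime. -/
noncomputable def d (i : ℕ) : ℤ := (p (i + 1) : ℤ) - p i

/-- The primes `p_n, …, p_(n+m)` are at most `x`, the `m` gaps between them are at least `H` and at
most `C H`, and the gap before `p_n` is at least `c f(x)`. -/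
def Cluster (c C x H : ℝ) (m n : ℕ) : Prop :=
  0 < n ∧ (p (n + m) : ℝ) ≤ x ∧ c * f x ≤ (d (n - 1) : ℝ) ∧
    ∀ i < m, H ≤ (d (n + i) : ℝ) ∧ (d (n + i) : ℝ) ≤ C * H

/-- The sum of the gaps `d_(n+i)`, `i ∈ I`. -/
noncomputable def σ (n : ℕ) (I : Finset ℕ) : ℤ := ∑ i ∈ I, d (n + i)

/-- The five canonical types of a function `F` on the sums `σ n I`, `∅ ≠ I ⊆ {0, …, m - 1}`: the
equality `F (σ n I) = F (σ n J)` holds always, or if and only if `I` and `J` have the same minimum, or
the same maximum, or the same minimum and the same maximum, or are equal. -/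
def Canonical {A : Type} (F : ℤ → A) (m n : ℕ) : Prop :=
  ∃ R ∈ ({fun _ _ => True, fun I J => I.min = J.min, fun I J => I.max = J.max,
      fun I J => I.min = J.min ∧ I.max = J.max, fun I J => I = J} :
        Set (Finset ℕ → Finset ℕ → Prop)),
    ∀ I J : Finset ℕ, I.Nonempty → J.Nonempty → I ⊆ Finset.range m → J ⊆ Finset.range m →
      (F (σ n I) = F (σ n J) ↔ R I J)

theorem finite_of {x : ℝ} {k : ℕ} {S : Set ℕ} (h : ∀ n ∈ S, (p (n + k) : ℝ) ≤ x) : S.Finite := by
  refine (Set.finite_Iic ⌊x⌋₊).subset ?_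
  intro n hn
  refine Nat.le_floor (le_trans ?_ (h n hn))
  have h2 : n + k ≤ Nat.nth Nat.Prime (n + k) :=
    (Nat.nth_strictMono Nat.infinite_setOfPred_prime).le_apply
  exact_mod_cast (Nat.le_add_right n k).trans h2

theorem cluster_of {c C x H : ℝ} {m n : ℕ} (h1 : 0 < n)
    (h2 : (Nat.nth Nat.Prime (n + m) : ℝ) ≤ x)
    (h3 : c * f x ≤ (Nat.nth Nat.Prime n : ℝ) - Nat.nth Nat.Prime (n - 1))
    (h4 : ∀ i < m, H ≤ (d (n + i) : ℝ) ∧ (d (n + i) : ℝ) ≤ C * H) : Cluster c C x H m n := by
  refine ⟨h1, h2, ?_, h4⟩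
  unfold d p
  rw [Nat.sub_add_cancel h1]
  push_cast
  exact h3

/-- **The canonical theorem for sums of consecutive prime gaps next to a record gap.** For all `m` and
`L`:

1. there are `c > 0`, `C` and `x₀` such that for all `x ≥ x₀`, all `H` with `1 ≤ H ≤ c f(x)` and all
functions `F 0, …, F (L - 1)` on the integers, with values in any set, there are at least `x^(7/8)`
clusters `p_n, …, p_(n+m)` on which every `F l` is of one of the five canonical types;

2. for every `t` there are `c > 0`, `C` and `x₀` such that for all `x ≥ x₀`, all `H` with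
`1 ≤ H ≤ c f(x)` and all functions `F 0, …, F (L - 1)` on the integers which take no value more than
`t` times there are at least `x^(7/8)` clusters `p_n, …, p_(n+m)` such that for every `l` the values of
`F l` at the sums of the gaps over different nonempty sets of indices are different. -/
theorem result (m L : ℕ) :
    (∃ c C : ℝ, 0 < c ∧ ∃ x₀ : ℝ, ∀ x : ℝ, x₀ ≤ x → ∀ H : ℝ, 1 ≤ H → H ≤ c * f x →
      ∀ (A : Type) (F : Fin L → ℤ → A),
      x ^ (7 / 8 : ℝ) ≤ (Set.ncard {n : ℕ | Cluster c C x H m n ∧
        ∀ l, Canonical (F l) m n} : ℝ)) ∧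
    ∀ t : ℕ, ∃ c C : ℝ, 0 < c ∧ ∃ x₀ : ℝ, ∀ x : ℝ, x₀ ≤ x → ∀ H : ℝ, 1 ≤ H → H ≤ c * f x →
      ∀ (A : Type) (F : Fin L → ℤ → A),
      (∀ l, ∀ S : Finset ℤ, (∀ a ∈ S, ∀ b ∈ S, F l a = F l b) → S.card ≤ t) →
      x ^ (7 / 8 : ℝ) ≤ (Set.ncard {n : ℕ | Cluster c C x H m n ∧
        ∀ l, ∀ I J : Finset ℕ, I.Nonempty → J.Nonempty → I ⊆ Finset.range m → J ⊆ Finset.range m →
          I ≠ J → F l (σ n I) ≠ F l (σ n J)} : ℝ) := by
  constructor
  · obtain ⟨c, C, hc, h⟩ := Pool.Agent.Run7.h429.TG.main m L
    obtain ⟨x₀, hx₀⟩ := Filter.eventually_atTop.1 h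
    refine ⟨c, C, hc, x₀, fun x hx H hH hHc A F => (hx₀ x hx H hH hHc A F).trans ?_⟩
    rw [Nat.cast_le]
    refine Set.ncard_le_ncard ?_ (finite_of (k := m) fun n hn => hn.1.2.1)
    rintro n ⟨h1, h2, h3, h4, h5⟩
    refine ⟨cluster_of h1 h2 h3 h4, fun l => ?_⟩
    rcases h5 l with h6 | h6 | h6 | h6 | h6
    · exact ⟨_, Or.inl rfl, fun I J hI hJ bI bJ => iff_true_intro (h6 I J hI hJ bI bJ)⟩
    · exact ⟨_, Or.inr (Or.inl rfl), h6⟩
    · exact ⟨_, Or.inr (Or.inr (Or.inl rfl)), h6⟩
    · exact ⟨_, Or.inr (Or.inr (Or.inr (Or.inl rfl))), h6⟩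
    · exact ⟨_, Or.inr (Or.inr (Or.inr (Or.inr rfl))), h6⟩
  · intro t
    obtain ⟨c, C, hc, h⟩ := Pool.Agent.Run7.h429.TG.main_rainbow m L t
    obtain ⟨x₀, hx₀⟩ := Filter.eventually_atTop.1 h
    refine ⟨c, C, hc, x₀, fun x hx H hH hHc A F hF => (hx₀ x hx H hH hHc A F hF).trans ?_⟩
    rw [Nat.cast_le]
    refine Set.ncard_le_ncard ?_ (finite_of (k := m) fun n hn => hn.1.2.1)
    rintro n ⟨h1, h2, h3, h4, h5⟩
    exact ⟨cluster_of h1 h2 h3 h4, fun l I J hI hJ bI bJ hne he => hne (h5 l I J hI hJ bI bJ he)⟩

end Pool.Agent.Results.MP_ff81b6_nt.CanonicalSumsOfGaps
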